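import Pool.Agent.V1140.DC.Gal
import Pool.Agent.Y63.KR.Levels

/-!
# Brauer's permutation lemma for power maps, and levels of rationality of characters
-/

set_option autoImplicit false

open scoped BigOperators Classical
open Pool.Agent.Helper884.IC Pool.Agent.Y63.KR Pool.Agent.Y63.AWC

noncomputable section

namespace Pool.Agent.V1140.DC

/-- The number of the irreducible characters `χ` of `H` with `χ (g ^ s) = χ g` for all `g`. -/
def numFixedChar (s : ℕ) (H : Type) [Group H] : ℕ :=
  Nat.card {χ : H → ℂ // IsIrreducibleCharacter χ ∧ ∀ g, χ (g ^ s) = χ g}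

/-- `χ` is `p^a`-rational: `χ (g ^ s) = χ g` for all `g` and all `s` prime to `p` with `s ≡ 1`
modulo `p^a` and modulo the `p'`-part of the group order. -/
def IsRationalChar (p a : ℕ) {H : Type} [Group H] (χ : H → ℂ) : Prop :=
  ∀ s : ℕ, ¬ p ∣ s → s ≡ 1 [MOD p ^ a] →
    s ≡ 1 [MOD Nat.card H / p ^ (Nat.card H).factorization p] → ∀ g : H, χ (g ^ s) = χ g

/-- The number of the `p^a`-rational irreducible characters of `H`. -/
def numRationalChar (p a : ℕ) (H : Type) [Group H] : ℕ :=
  Nat.card {χ : H → ℂ // IsIrreducibleCharacter χ ∧ IsRationalChar p a χ}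

/-- The number of the irreducible characters of `H` of `p`-rationality level `a ≥ 1`: they are
`p^a`-rational and not `p^(a-1)`-rational. -/
def numLevelChar (p a : ℕ) (H : Type) [Group H] : ℕ :=
  Nat.card {χ : H → ℂ // IsIrreducibleCharacter χ ∧ IsRationalChar p a χ ∧
    ¬ IsRationalChar p (a - 1) χ}

lemma finite_irr (H : Type) [Group H] [Finite H] (P : (H → ℂ) → Prop) :
    Finite {χ : H → ℂ // IsIrreducibleCharacter χ ∧ P χ} := by
  have := Fintype.ofFinite H
  have h : {χ : H → ℂ | IsIrreducibleCharacter χ ∧ P χ}.Finite :=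
    (irr_finite (G := H)).subset fun χ hχ => hχ.1
  exact h.to_subtype

lemma sum_card (H : Type) [Group H] [Fintype H] (s : ℕ) :
    ∑ g : H, Nat.card {n : H // n * g ^ s * n⁻¹ = g} = Nat.card H * numFixed s H := by
  rw [numFixed_eq, card_mul_numR s H (fun _ => True) (fun _ _ _ => Iff.rfl)]
  have h1 : ∑ g : H, Nat.card {n : H // n * g ^ s * n⁻¹ = g} =
      Nat.card (Σ g : H, {n : H // n * g ^ s * n⁻¹ = g}) := by
    rw [Nat.card_sigma]
  rw [h1]
  refine Nat.card_congr
    { toFun := fun q => ⟨(q.1, (q.2.1)⁻¹), ?_, trivial⟩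
      invFun := fun q => ⟨q.1.1, (q.1.2)⁻¹, ?_⟩
      left_inv := ?_
      right_inv := ?_ }
  · obtain ⟨g, n, hn⟩ := q
    have h := congrArg (fun z => n⁻¹ * z * n) hn
    change n⁻¹ * g * (n⁻¹)⁻¹ = g ^ s
    rw [inv_inv]
    simpa [mul_assoc] using h.symm
  · have h := q.2.1
    change (q.1.2)⁻¹ * q.1.1 ^ s * ((q.1.2)⁻¹)⁻¹ = q.1.1
    rw [inv_inv, ← h]
    group
  · rintro ⟨g, n, hn⟩
    simp
  · rintro ⟨⟨g, n⟩, hn⟩
    simp

/-- **Brauer's permutation lemma** for the power maps. -/
theorem numFixedChar_eq (H : Type) [Group H] [Finite H] {s : ℕ}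
    (hs : Nat.Coprime s (Nat.card H)) : numFixedChar s H = numFixed s H := by
  have := Fintype.ofFinite H
  have hc0 : (Nat.card H : ℂ) ≠ 0 := by exact_mod_cast Nat.card_pos.ne'
  -- the left side
  have h1 : ∑ χ ∈ Irr H, B (fun g => χ (g ^ s)) χ = (numFixedChar s H : ℂ) := by
    have h2 : ∀ χ ∈ Irr H, B (fun g => χ (g ^ s)) χ =
        if (fun g => χ (g ^ s)) = χ then (1 : ℂ) else 0 := by
      intro χ hχ
      exact B_irr (irr_pow hs (mem_Irr.1 hχ)) (mem_Irr.1 hχ)
    rw [Finset.sum_congr rfl h2, Finset.sum_ite, Finset.sum_const_zero, add_zero, Finset.sum_const,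
      nsmul_eq_mul, mul_one]
    congr 1
    unfold numFixedChar
    symm
    refine Nat.subtype_card _ fun χ => ?_
    rw [Finset.mem_filter, mem_Irr]
    exact and_congr_right fun _ => funext_iff
  have h3 : ∑ χ ∈ Irr H, B (fun g => χ (g ^ s)) χ = (numFixed s H : ℂ) := by
    unfold B
    rw [← Finset.mul_sum, Finset.sum_comm]
    have h5 : ∀ g : H, ∑ χ ∈ Irr H, χ (g ^ s) * χ g⁻¹ =
        ((Nat.card {n : H // n * g ^ s * n⁻¹ = g} : ℕ) : ℂ) := fun g => col_orth (g ^ s) g
    rw [Finset.sum_congr rfl fun g _ => h5 g, ← Nat.cast_sum, sum_card, Nat.cast_mul, ← mul_assoc,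
      inv_mul_cancel₀ hc0, one_mul]
  have h4 := h1.symm.trans h3
  exact_mod_cast h4

lemma char_pow_pow {H : Type} [Group H] {χ : H → ℂ} {t : ℕ} (h : ∀ g, χ (g ^ t) = χ g) (j : ℕ)
    (g : H) : χ (g ^ t ^ j) = χ g := by
  induction j generalizing g with
  | zero => simp
  | succ j ih => rw [pow_succ, mul_comm, pow_mul, ih, h]

/-- The number of the `p^a`-rational irreducible characters is the number of the `p^a`-rational
classes. -/
theorem numRationalChar_eq {p : ℕ} [Fact p.Prime] {a : ℕ} (ha : p = 2 → 2 ≤ a) (H : Type)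
    [Group H] [Finite H] : numRationalChar p a H = numRational p a H := by
  have hp : p.Prime := Fact.out
  obtain ⟨N, hN⟩ : ∃ N, N = Nat.card H := ⟨_, rfl⟩
  have hN0 : N ≠ 0 := hN ▸ Nat.card_pos.ne'
  obtain ⟨t, ht1, ht2, ht3, ht4⟩ := exists_exponent (p := p) ha (N.factorization p)
    (N / p ^ N.factorization p) (Nat.not_dvd_ordCompl hp hN0)
  have hmv : p ^ N.factorization p * (N / p ^ N.factorization p) = N :=
    Nat.ordProj_mul_ordCompl_eq_self N p
  have hcopm : Nat.Coprime t (N / p ^ N.factorization p) := by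
    have h1 := ht3.gcd_eq
    rw [Nat.gcd_one_left] at h1
    exact h1
  have hcopp : Nat.Coprime t (p ^ N.factorization p) :=
    Nat.Coprime.pow_right _ ((Nat.Prime.coprime_iff_not_dvd hp).mpr ht1).symm
  have hcop : Nat.Coprime t (Nat.card H) := by
    rw [← hN, ← hmv]
    exact Nat.Coprime.mul_right hcopp hcopm
  have e1 : numRationalChar p a H = numFixedChar t H := by
    unfold numRationalChar numFixedChar
    refine Nat.card_congr (Equiv.subtypeEquivRight fun χ => and_congr_right fun _ => ?_)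
    constructor
    · intro h
      exact h t ht1 ht2 (by rw [← hN]; exact ht3)
    · intro h s hs1 hs2 hs3 g
      rw [← hN] at hs3
      obtain ⟨j, hj⟩ := ht4 s hs1 hs2
      have h1 : g ^ s = g ^ t ^ j := by
        have h2 : s ≡ t ^ j [MOD N] := by
          rw [← hmv, ← Nat.modEq_and_modEq_iff_modEq_mul]
          · refine ⟨hj, ?_⟩
            have h3 : t ^ j ≡ 1 ^ j [MOD N / p ^ N.factorization p] := ht3.pow j
            rw [one_pow] at h3
            exact hs3.trans h3.symm
          · exact Nat.Coprime.pow_left _ ((Nat.Prime.coprime_iff_not_dvd hp).mpr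
              (Nat.not_dvd_ordCompl hp hN0))
        exact pow_eq_pow_iff_modEq.mpr (h2.of_dvd (by rw [hN]; exact orderOf_dvd_natCard g))
      rw [h1]
      exact char_pow_pow h j g
  have e2 : numRational p a H = numFixed t H := by
    unfold numRational numFixed
    refine Nat.card_congr (Equiv.subtypeEquivRight fun c => ?_)
    refine exists_congr fun x => and_congr_right fun _ => ?_
    have hx : orderOf x ∣ N := by rw [hN]; exact orderOf_dvd_natCard x
    have hx0 : orderOf x ≠ 0 := fun h => hN0 (Nat.eq_zero_of_zero_dvd (h ▸ hx))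
    have hd : orderOf x / p ^ (orderOf x).factorization p ∣ N / p ^ N.factorization p :=
      Nat.ordCompl_dvd_ordCompl_of_dvd hx p
    have hd2 : p ^ (orderOf x).factorization p ∣ p ^ N.factorization p := by
      apply pow_dvd_pow
      exact (Nat.factorization_le_iff_dvd hx0 hN0).mpr hx p
    constructor
    · intro h
      exact h t ht1 ht2 (ht3.of_dvd hd)
    · intro h s hs1 hs2 hs3
      obtain ⟨j, hj⟩ := ht4 s hs1 hs2
      have h1 : x ^ s = x ^ t ^ j := by
        rw [pow_eq_pow_iff_modEq]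
        rw [← Nat.ordProj_mul_ordCompl_eq_self (orderOf x) p]
        rw [← Nat.modEq_and_modEq_iff_modEq_mul]
        · refine ⟨hj.of_dvd hd2, ?_⟩
          have h2 : t ^ j ≡ 1 ^ j [MOD orderOf x / p ^ (orderOf x).factorization p] :=
            (ht3.of_dvd hd).pow j
          rw [one_pow] at h2
          exact hs3.trans h2.symm
        · exact Nat.Coprime.pow_left _ ((Nat.Prime.coprime_iff_not_dvd hp).mpr
            (Nat.not_dvd_ordCompl hp hx0))
      rw [h1]
      exact isConj_pow_pow h j
  rw [e1, e2, numFixedChar_eq H hcop]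

lemma isRationalChar_mono {p : ℕ} {H : Type} [Group H] {a b : ℕ} (hab : a ≤ b) {χ : H → ℂ}
    (h : IsRationalChar p a χ) : IsRationalChar p b χ :=
  fun s h1 h2 h3 => h s h1 (h2.of_dvd (pow_dvd_pow p hab)) h3

lemma numLevelChar_add {p : ℕ} {a : ℕ} (H : Type) [Group H] [Finite H] :
    numRationalChar p a H = numLevelChar p a H + numRationalChar p (a - 1) H := by
  unfold numLevelChar numRationalChar
  have f1 := finite_irr H (fun χ => IsRationalChar p a χ ∧ ¬ IsRationalChar p (a - 1) χ)
  have f2 := finite_irr H (fun χ => IsRationalChar p (a - 1) χ)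
  rw [← Nat.card_sum]
  refine Nat.card_congr ?_
  have h1 : ∀ χ : H → ℂ, (IsIrreducibleCharacter χ ∧ IsRationalChar p a χ) ↔
      ((IsIrreducibleCharacter χ ∧ IsRationalChar p a χ ∧ ¬ IsRationalChar p (a - 1) χ) ∨
        (IsIrreducibleCharacter χ ∧ IsRationalChar p (a - 1) χ)) := by
    intro χ
    constructor
    · rintro ⟨h1, h2⟩
      by_cases h3 : IsRationalChar p (a - 1) χ
      · exact Or.inr ⟨h1, h3⟩
      · exact Or.inl ⟨h1, h2, h3⟩
    · rintro (⟨h1, h2, -⟩ | ⟨h1, h2⟩)
      · exact ⟨h1, h2⟩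
      · exact ⟨h1, isRationalChar_mono (Nat.sub_le a 1) h2⟩
  refine (Equiv.subtypeEquivRight h1).trans (subtypeOrEquiv _ _ ?_)
  rw [Pi.disjoint_iff]
  intro χ
  rw [Prop.disjoint_iff]
  rintro ⟨⟨-, -, h2⟩, -, h3⟩
  exact h2 h3

theorem numLevelChar_eq {p : ℕ} [Fact p.Prime] {a : ℕ} (ha : p = 2 → 3 ≤ a)
    {G : Type} [Group G] [Finite G] (H : Subgroup G) : numLevelChar p a H = numLevel p a H := by
  have e1 := numLevelChar_add (p := p) (a := a) H
  have e2 := numLevel_add (p := p) (a := a) H
  rw [numRationalChar_eq (fun h => by have := ha h; omega),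
    numRationalChar_eq (fun h => by have := ha h; omega)] at e1
  omega

end Pool.Agent.V1140.DC
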