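import Pool.Agent.V1115.SR.Field
import Pool.Agent.Y63.AWC.Ch

/-!
# Galois conjugates of irreducible characters (power maps)
-/

set_option autoImplicit false

open scoped BigOperators Classical IntermediateField
open Pool.Agent.Helper884.IC

noncomputable section

namespace Pool.Agent.V1140.DC

/-! ### Twisting (copied from `Pool.Agent.Y824.GA.Irr`) -/

/-- the module `V` with the scalar multiplication twisted by an automorphism of `ℂ` -/
def Tw (_ : ℂ ≃+* ℂ) (V : Type) : Type := V

section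

variable (σ : ℂ ≃+* ℂ) (V : Type) [AddCommGroup V] [Module ℂ V]

instance : AddCommGroup (Tw σ V) := inferInstanceAs (AddCommGroup V)

instance : Module ℂ (Tw σ V) := Module.compHom V (σ.symm : ℂ →+* ℂ)

/-- the identity -/
def tw : V ≃+ Tw σ V := AddEquiv.refl V

variable {V}

theorem smul_tw (c : ℂ) (v : V) : c • tw σ V v = tw σ V (σ.symm c • v) := rfl

theorem tw_smul (c : ℂ) (v : V) : tw σ V (c • v) = σ c • tw σ V v := by
  rw [smul_tw, RingEquiv.symm_apply_apply]

theorem tw_symm_smul (c : ℂ) (v : Tw σ V) :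
    (tw σ V).symm (c • v) = σ.symm c • (tw σ V).symm v := rfl

/-- the basis -/
def twBasis {ι : Type} [Finite ι] (b : Module.Basis ι ℂ V) : Module.Basis ι ℂ (Tw σ V) :=
  Module.Basis.ofEquivFun
    { toFun := fun v i => σ (b.equivFun ((tw σ V).symm v) i)
      map_add' := fun v w => by
        funext i
        rw [map_add, map_add, Pi.add_apply, map_add]
        rfl
      map_smul' := fun c v => by
        funext i
        rw [tw_symm_smul, map_smul, Pi.smul_apply, smul_eq_mul, map_mul,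
          RingEquiv.apply_symm_apply]
        rfl
      invFun := fun x => tw σ V (b.equivFun.symm fun i => σ.symm (x i))
      left_inv := fun v => by
        simp only [RingEquiv.symm_apply_apply]
        exact congrArg (tw σ V) (b.equivFun.symm_apply_apply ((tw σ V).symm v))
      right_inv := fun x => by
        funext i
        simp }

theorem twBasis_repr {ι : Type} [Finite ι] (b : Module.Basis ι ℂ V) (v : V) (i : ι) :
    (twBasis σ b).repr (tw σ V v) i = σ (b.repr v i) := rfl

theorem twBasis_apply {ι : Type} [Finite ι] (b : Module.Basis ι ℂ V) (i : ι) :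
    twBasis σ b i = tw σ V (b i) := by
  classical
  apply (twBasis σ b).repr.injective
  ext j
  rw [twBasis_repr, Module.Basis.repr_self, Module.Basis.repr_self, Finsupp.single_apply]
  split_ifs <;> simp

variable {G : Type} [Group G] (ρ : Representation ℂ G V)

/-- the twisted linear map -/
def twMap (f : V →ₗ[ℂ] V) : Tw σ V →ₗ[ℂ] Tw σ V where
  toFun v := tw σ V (f ((tw σ V).symm v))
  map_add' v w := by rw [map_add, map_add, map_add]
  map_smul' c v := by
    rw [tw_symm_smul, map_smul, RingHom.id_apply, smul_tw]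

/-- the twisted representation -/
def twRep : Representation ℂ G (Tw σ V) where
  toFun g := twMap σ (ρ g)
  map_one' := by
    ext v
    simp [twMap]
  map_mul' a b := by
    ext v
    simp [twMap]

theorem tw_trace [FiniteDimensional ℂ V] (f : V →ₗ[ℂ] V) :
    LinearMap.trace ℂ (Tw σ V) (twMap σ f) = σ (LinearMap.trace ℂ V f) := by
  classical
  let b := Module.finBasis ℂ V
  rw [LinearMap.trace_eq_matrix_trace ℂ b, LinearMap.trace_eq_matrix_trace ℂ (twBasis σ b),
    Matrix.trace, Matrix.trace, map_sum]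
  refine Finset.sum_congr rfl fun i _ => ?_
  rw [Matrix.diag_apply, Matrix.diag_apply, LinearMap.toMatrix_apply, LinearMap.toMatrix_apply,
    twBasis_apply]
  exact twBasis_repr σ b (f (b i)) i

/-- the subrepresentations -/
def twSub : Subrepresentation ρ ≃o Subrepresentation (twRep σ ρ) where
  toFun U :=
    { toSubmodule :=
        { carrier := {v | (tw σ V).symm v ∈ U.toSubmodule}
          zero_mem' := U.toSubmodule.zero_mem
          add_mem' := fun {a b} ha hb => U.toSubmodule.add_mem ha hb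
          smul_mem' := fun c a ha => U.toSubmodule.smul_mem (σ.symm c) ha }
      apply_mem_toSubmodule := fun g v hv => U.apply_mem_toSubmodule g hv }
  invFun U :=
    { toSubmodule :=
        { carrier := {v | tw σ V v ∈ U.toSubmodule}
          zero_mem' := U.toSubmodule.zero_mem
          add_mem' := fun {a b} ha hb => U.toSubmodule.add_mem ha hb
          smul_mem' := fun c a ha => by
            change tw σ V (c • a) ∈ U.toSubmodule
            rw [tw_smul]
            exact U.toSubmodule.smul_mem (σ c) ha }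
      apply_mem_toSubmodule := fun g v hv => U.apply_mem_toSubmodule g hv }
  left_inv U := rfl
  right_inv U := rfl
  map_rel_iff' := Iff.rfl

end

/-- Galois conjugates of irreducible characters are irreducible -/
theorem irr_gal {G : Type} [Group G] (σ : ℂ ≃+* ℂ) {χ : G → ℂ} (hχ : IsIrrChar χ) :
    IsIrrChar (fun g => σ (χ g)) := by
  obtain ⟨V, _, _, _, ρ, hρ, rfl⟩ := hχ
  have hfd : FiniteDimensional ℂ (Tw σ V) :=
    Module.Finite.of_basis (twBasis σ (Module.finBasis ℂ V))
  refine ⟨Tw σ V, inferInstance, inferInstance, hfd, twRep σ ρ,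
    (twSub σ ρ).isSimpleOrder_iff.1 hρ, ?_⟩
  funext g
  exact (tw_trace σ (ρ g)).symm

/-! ### Automorphisms of `ℂ` -/

/-- Automorphisms of a subfield extend to `ℂ` (copied from `Pool.Agent.H977R3.CM.Aut`). -/
theorem exists_aut {L : Type*} [Field L] (j : L →+* ℂ) (g : L ≃+* L) :
    ∃ σ : ℂ ≃+* ℂ, ∀ x, σ (j x) = j (g x) := by
  let _ : Algebra L ℂ := j.toAlgebra
  obtain ⟨s, hs⟩ := exists_isTranscendenceBasis L ℂ
  have _ : IsAlgClosure (Algebra.adjoin L (Set.range (Subtype.val : s → ℂ))) ℂ :=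
    IsAlgClosed.isAlgClosure_of_transcendence_basis _ hs
  let A := hs.1.aevalEquiv
  let e : Algebra.adjoin L (Set.range (Subtype.val : s → ℂ)) ≃+*
      Algebra.adjoin L (Set.range (Subtype.val : s → ℂ)) :=
    A.symm.toRingEquiv.trans ((MvPolynomial.mapEquiv s g).trans A.toRingEquiv)
  refine ⟨IsAlgClosure.equivOfEquiv ℂ ℂ e, fun x => ?_⟩
  have h1 : j x = algebraMap (Algebra.adjoin L (Set.range (Subtype.val : s → ℂ))) ℂ
      (algebraMap L _ x) := rfl
  have h2 : j (g x) = algebraMap (Algebra.adjoin L (Set.range (Subtype.val : s → ℂ))) ℂ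
      (algebraMap L _ (g x)) := rfl
  rw [h1, IsAlgClosure.equivOfEquiv_algebraMap, h2]
  congr 1
  change A (MvPolynomial.map (g : L →+* L) (A.symm (algebraMap L _ x))) = algebraMap L _ (g x)
  rw [AlgEquiv.commutes, MvPolynomial.algebraMap_eq, MvPolynomial.map_C,
    ← MvPolynomial.algebraMap_eq, AlgEquiv.commutes]
  rfl

/-- the cyclotomic automorphisms of `ℂ` -/
theorem exists_cyc {N : ℕ} (hN : 0 < N) {ζ : ℂ} (hζ : IsPrimitiveRoot ζ N) {s : ℕ}
    (hs : Nat.Coprime s N) : ∃ σ : ℂ ≃+* ℂ, σ ζ = ζ ^ s := by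
  have h1 : IsIntegral ℚ ζ :=
    IsIntegral.of_pow hN (by rw [hζ.pow_eq_one]; exact isIntegral_one)
  have hζj : IsPrimitiveRoot (ζ ^ s) N := hζ.pow_of_coprime s hs
  let γ : ℚ⟮ζ⟯ := IntermediateField.AdjoinSimple.gen ℚ ζ
  have hγ : ((γ : ℚ⟮ζ⟯) : ℂ) = ζ := IntermediateField.AdjoinSimple.coe_gen ℚ ζ
  have h2 : γ ^ s ∈ (minpoly ℚ ζ).aroots ℚ⟮ζ⟯ := by
    rw [Polynomial.mem_aroots]
    refine ⟨minpoly.ne_zero h1, ?_⟩
    have h3 : (algebraMap ℚ⟮ζ⟯ ℂ) (Polynomial.aeval (γ ^ s) (minpoly ℚ ζ)) = 0 := by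
      rw [← Polynomial.aeval_algebraMap_apply, map_pow]
      change Polynomial.aeval (((γ : ℚ⟮ζ⟯) : ℂ) ^ s) (minpoly ℚ ζ) = 0
      rw [hγ, ← Polynomial.cyclotomic_eq_minpoly_rat hζ hN,
        Polynomial.cyclotomic_eq_minpoly_rat hζj hN]
      exact minpoly.aeval ℚ _
    exact (map_eq_zero _).1 h3
  let τ : ℚ⟮ζ⟯ →ₐ[ℚ] ℚ⟮ζ⟯ := (IntermediateField.algHomAdjoinIntegralEquiv ℚ h1).symm ⟨_, h2⟩
  have hτ : τ γ = γ ^ s := IntermediateField.algHomAdjoinIntegralEquiv_symm_apply_gen ℚ h1 _
  have hfd : FiniteDimensional ℚ ℚ⟮ζ⟯ := IntermediateField.adjoin.finiteDimensional h1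
  have hbij : Function.Bijective τ := ⟨τ.injective, by
    have := (LinearMap.injective_iff_surjective (f := τ.toLinearMap)).1 τ.injective
    exact this⟩
  obtain ⟨σ, hσ⟩ := exists_aut (algebraMap ℚ⟮ζ⟯ ℂ) (AlgEquiv.ofBijective τ hbij).toRingEquiv
  refine ⟨σ, ?_⟩
  have h4 := hσ γ
  have h5 : (algebraMap ℚ⟮ζ⟯ ℂ) γ = ζ := hγ
  rw [h5] at h4
  rw [h4]
  change (algebraMap ℚ⟮ζ⟯ ℂ) (τ γ) = ζ ^ s
  rw [hτ, map_pow, h5]

variable {G : Type} [Group G] [Fintype G]

/-- the power maps prime to the group order act on the irreducible characters -/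
theorem irr_pow {s : ℕ} (hs : Nat.Coprime s (Nat.card G)) {χ : G → ℂ} (hχ : IsIrrChar χ) :
    IsIrrChar (fun g => χ (g ^ s)) := by
  have hN : 0 < Nat.card G := Nat.card_pos
  obtain ⟨ζ, hζ⟩ : ∃ ζ : ℂ, IsPrimitiveRoot ζ (Nat.card G) :=
    ⟨_, Complex.isPrimitiveRoot_exp _ hN.ne'⟩
  obtain ⟨σ, hσ⟩ := exists_cyc hN hζ hs
  have h := irr_gal σ hχ
  have e : (fun g => σ (χ g)) = fun g => χ (g ^ s) := by
    funext x
    obtain ⟨n, hn⟩ := Pool.Agent.V1115.SR.char_form hχ hN hζ (x := x) pow_card_eq_one'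
    have h1 := hn 1
    rw [pow_one] at h1
    rw [h1, hn s, map_sum]
    refine Finset.sum_congr rfl fun i _ => ?_
    rw [map_mul, map_natCast, map_pow, hσ, mul_one, ← pow_mul, mul_comm s i]
  rwa [e] at h

end Pool.Agent.V1140.DC
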